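import Mathlib
import Pool.Agent.Q183.Thick.Main

set_option autoImplicit false

/-!
# The joint return times for `n^(3/2)` and `α n^(3/2) + n` need not be thick

For every irrational `α` there is a set `E` of positive upper density for which `R_{f₁}(E) ∩ R_{f₂}(E)` is not thick,
where `f₁(t) = t^(3/2)` and `f₂(t) = α t^(3/2) + t`.
-/

namespace Pool.Agent.Results.MP_df75a5_an.NeverThick

open Pool.Agent.Q183.Thick

/-- For every irrational `α` some `E ⊆ {1, 2, …}` of positive upper density has the property that the lengths of the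
intervals of consecutive integers contained in `R_{f₁}(E) ∩ R_{f₂}(E)` are bounded. -/
theorem result (α : ℝ) (hα : Irrational α) : ∃ E : Set ℕ, (∀ m ∈ E, 1 ≤ m) ∧ 0 < upperDensity E ∧
    ∃ L : ℕ, ∀ a : ℕ, ∃ i ≤ L,
      a + i ∉ R (fun t => t ^ (3 / 2 : ℝ)) E ∩ R (fun t => α * t ^ (3 / 2 : ℝ) + t) E := by
  obtain ⟨ε, hε, h⟩ := not_thick hα
  refine ⟨bohr α ε, fun m hm => hm.1, bohr_density α hε, ?_⟩
  unfold Thick at h
  push Not at h
  exact h

end Pool.Agent.Results.MP_df75a5_an.NeverThick
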